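import Pool.Agent.Lib.RA.T_AN
import Pool.Agent.Lib.SV.B_JET
import Pool.Agent.Lib.SV.B_SMO

/-! Three local pieces of the theorem of Siegel on fields of meromorphic functions: the rank step,
the count of jets, and the primitive element. -/

open Set Metric Filter Asymptotics
open scoped Topology ContDiff IntermediateField

noncomputable section

namespace Pool.Agent.Lib.SG45

open Pool.Agent.Lib.SV

/-- A holomorphic function whose differential kills the kernel of the differential of a
submersion `z` is locally an analytic function of `z`. -/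
theorem jet {n k : ℕ} {z : E n → E k} {f : E n → ℂ} {c : E n}
    (hz : ∀ᶠ x in 𝓝 c, DifferentiableAt ℂ z x) (hf : ∀ᶠ x in 𝓝 c, DifferentiableAt ℂ f x)
    (hs : Function.Surjective (fderiv ℂ z c))
    (hk : ∀ᶠ x in 𝓝 c, ∀ v, fderiv ℂ z x v = 0 → fderiv ℂ f x v = 0) :
    ∃ g : E k → ℂ, AnalyticAt ℂ g (z c) ∧ f =ᶠ[𝓝 c] g ∘ z := by
  have az := RA.ANB.analyticAt hz
  have af := RA.ANB.analyticAt hf
  set A := fderiv ℂ z c with hA
  obtain ⟨S0, hS0⟩ := (A : E n →ₗ[ℂ] E k).exists_rightInverse_of_surjective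
    (LinearMap.range_eq_top.2 hs)
  let S : E k →L[ℂ] E n := LinearMap.toContinuousLinearMap S0
  have hS : ∀ w, A (S w) = w := fun w => LinearMap.congr_fun hS0 w
  let F : E n → E n := fun x => S (z x) + (x - S (A x))
  have hAF : ∀ x, A (F x) = z x := fun x => by simp [F, hS]
  have aF : AnalyticAt ℂ F c :=
    ((S.analyticAt _).comp az).add (analyticAt_id.sub ((S.comp A).analyticAt c))
  have dF : HasFDerivAt F
      ((ContinuousLinearEquiv.refl ℂ (E n) : E n ≃L[ℂ] E n) : E n →L[ℂ] E n) c := by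
    have h1 := (S.hasFDerivAt.comp c az.differentiableAt.hasFDerivAt).add
      ((hasFDerivAt_id c).sub (S.comp A).hasFDerivAt)
    refine h1.congr_fderiv ?_
    ext1 v
    simp [hA]
  have cF : ContDiffAt ℂ ω F c := aF.contDiffAt
  have hw : (ω : WithTop ℕ∞) ≠ 0 := by simp
  let G := cF.localInverse dF hw
  have aG : AnalyticAt ℂ G (F c) := (cF.to_localInverse dF hw).analyticAt
  have hGc : G (F c) = c := cF.localInverse_apply_image dF hw
  have hl : ∀ᶠ x in 𝓝 c, G (F x) = x := (cF.hasStrictFDerivAt' dF hw).eventually_left_inverse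
  have hr : ∀ᶠ y in 𝓝 (F c), F (G y) = y := (cF.hasStrictFDerivAt' dF hw).eventually_right_inverse
  have tG : Tendsto G (𝓝 (F c)) (𝓝 c) := by
    have h1 := aG.continuousAt.tendsto
    rwa [hGc] at h1
  have ah : AnalyticAt ℂ (f ∘ G) (F c) := AnalyticAt.comp (by rw [hGc]; exact af) aG
  have hd : ∀ᶠ y in 𝓝 (F c), ∃ D : E n →L[ℂ] ℂ, HasFDerivAt (f ∘ G) D y ∧
      ∀ v, A v = 0 → D v = 0 := by
    filter_upwards [hr.eventually_nhds, tG.eventually hz, tG.eventually hf, tG.eventually hk,
      aG.eventually_analyticAt] with y h1 h2 h3 h4 h5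
    have h6 := h5.differentiableAt.hasFDerivAt
    refine ⟨_, h3.hasFDerivAt.comp y h6, fun v hv => h4 _ ?_⟩
    have h7 : HasFDerivAt (z ∘ G) A y := A.hasFDerivAt.congr_of_eventuallyEq
      (h1.mono fun y' h => by rw [Function.comp_apply, ← hAF, h])
    have h8 := (h2.hasFDerivAt.comp y h6).unique h7
    have h9 := congrArg (fun L : E n →L[ℂ] E k => L v) h8
    simpa [hv] using h9
  obtain ⟨r, hr0, hB⟩ := Metric.eventually_nhds_iff_ball.1 hd
  have hc : ∀ y ∈ ball (F c) r, ∀ y' ∈ ball (F c) r, A (y - y') = 0 →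
      (f ∘ G) y = (f ∘ G) y' := by
    intro y hy y' hy' h0
    have hcv : Convex ℝ {t : ℂ | y' + t • (y - y') ∈ ball (F c) r} := by
      intro s hs' t ht a b ha hb hab
      have h1 := convex_ball (F c) r hs' ht ha hb hab
      have h2 : y' + (a • s + b • t) • (y - y') =
          a • (y' + s • (y - y')) + b • (y' + t • (y - y')) := by
        rw [smul_add, smul_add, add_add_add_comm, ← add_smul, hab, one_smul, add_smul, smul_assoc,
          smul_assoc]
      show y' + (a • s + b • t) • (y - y') ∈ ball (F c) r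
      rw [h2]
      exact h1
    have h1 := hcv.norm_image_sub_le_of_norm_hasDerivWithin_le (C := 0)
      (f := fun t : ℂ => (f ∘ G) (y' + t • (y - y'))) (f' := fun _ => 0) (x := 0) (y := 1)
      (fun t ht => by
        obtain ⟨D, hD, hD0⟩ := hB _ ht
        have h2 : HasDerivAt (fun t : ℂ => y' + t • (y - y')) (y - y') t := by
          simpa using ((hasDerivAt_id t).smul_const (y - y')).const_add y'
        have h3 := hD.comp_hasDerivAt t h2
        rw [hD0 _ h0] at h3
        exact h3.hasDerivWithinAt)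
      (fun _ _ => by simp) (by simpa using hy') (by simpa using hy)
    simpa [sub_eq_zero] using h1
  let q : E k → E n := fun w => F c + S (w - z c)
  have hq : q (z c) = F c := by simp [q]
  have aq : AnalyticAt ℂ q (z c) :=
    analyticAt_const.add ((S.analyticAt _).comp (analyticAt_id.sub analyticAt_const))
  refine ⟨(f ∘ G) ∘ q, AnalyticAt.comp (by rw [hq]; exact ah) aq, ?_⟩
  have t1 : Tendsto (q ∘ z) (𝓝 c) (𝓝 (F c)) := by
    have h1 := (aq.comp az).continuousAt.tendsto
    rwa [Function.comp_apply, hq] at h1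
  filter_upwards [hl, aF.continuousAt.tendsto.eventually (ball_mem_nhds _ hr0),
    t1.eventually (ball_mem_nhds _ hr0)] with x h1 h2 h3
  have h4 := hc _ h2 _ h3 (by simp [q, hAF, hS])
  rw [Function.comp_apply, h1] at h4
  exact h4

theorem lam_sum {k : ℕ} {W ι : Type*} [AddCommGroup W] [Module ℂ W] {p : E k}
    {L : (E k → ℂ) → W}
    (hL : ∀ (c : ℂ) f g, (∀ᶠ w in 𝓝 p, DifferentiableAt ℂ f w) →
      (∀ᶠ w in 𝓝 p, DifferentiableAt ℂ g w) → L (c • f + g) = c • L f + L g)
    (u : ι → ℂ) {b : ι → E k → ℂ} (hb : ∀ i, AnalyticAt ℂ (b i) p) (s : Finset ι) :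
    AnalyticAt ℂ (∑ i ∈ s, u i • b i) p ∧ L (∑ i ∈ s, u i • b i) = ∑ i ∈ s, u i • L (b i) := by
  classical
  have he : ∀ {f : E k → ℂ}, AnalyticAt ℂ f p → ∀ᶠ w in 𝓝 p, DifferentiableAt ℂ f w :=
    fun h => h.eventually_analyticAt.mono fun _ h => h.differentiableAt
  induction s using Finset.induction_on with
  | empty =>
    refine ⟨analyticAt_const, ?_⟩
    have h := hL 1 0 0 (he analyticAt_const) (he analyticAt_const)
    simpa using h
  | insert a s ha ih =>
    rw [Finset.sum_insert ha, Finset.sum_insert ha, hL _ _ _ (he (hb a)) (he ih.1), ih.2]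
    exact ⟨((hb a).const_smul (c := u a)).add ih.1, rfl⟩

/-- The count: a non-zero polynomial relation of bounded degrees vanishing to a high order at
finitely many centres. -/
theorem cnt {n k N j m : ℕ} {A : Type*} [Fintype A] (z : A → E n → E k) (f : A → E n → ℂ)
    (c : A → E n) (hz : ∀ a, ∀ᶠ x in 𝓝 (c a), DifferentiableAt ℂ (z a) x)
    (hf : ∀ a, ∀ᶠ x in 𝓝 (c a), DifferentiableAt ℂ (f a) x)
    (hs : ∀ a, Function.Surjective (fderiv ℂ (z a) (c a)))
    (hk : ∀ a, ∀ᶠ x in 𝓝 (c a), ∀ v, fderiv ℂ (z a) x v = 0 → fderiv ℂ (f a) x v = 0)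
    (hc : Fintype.card A * (m + 1) ^ k < (N + 1) * (j + 1) ^ k) :
    ∃ P : Fin (N + 1) → MvPolynomial (Fin k) ℂ, P ≠ 0 ∧ (∀ t i, (P t).degreeOf i ≤ j) ∧
      ∀ a, (fun x => ∑ t, MvPolynomial.eval (z a x) (P t) * f a x ^ (t : ℕ)) =O[𝓝 (c a)]
        fun x => ‖x - c a‖ ^ (m + 1) := by
  classical
  choose g hg hfg using fun a => jet (hz a) (hf a) (hs a) (hk a)
  choose L _ hL hb using fun a => stJET stSMO k (m + 1) (z a (c a))
  let b : A → Fin (N + 1) × (Fin k → Fin (j + 1)) → E k → ℂ := fun a i w =>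
    (∏ l, w l ^ (i.2 l : ℕ)) * g a w ^ (i.1 : ℕ)
  have ab : ∀ a i, AnalyticAt ℂ (b a i) (z a (c a)) := fun a i =>
    (Finset.analyticAt_fun_prod _ fun l _ =>
      ((ContinuousLinearMap.proj (R := ℂ) (φ := fun _ : Fin k => ℂ) l).analyticAt _).fun_pow _).mul
      ((hg a).fun_pow _)
  have hn : ¬ LinearIndependent ℂ fun i (a : A) => L a (b a i) := fun h => by
    have h1 := h.fintype_card_le_finrank
    simp [Module.finrank_pi_fintype] at h1
    omega
  obtain ⟨u, hu, i0, hi0⟩ := Fintype.not_linearIndependent_iff.1 hn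
  let e : (Fin k → Fin (j + 1)) → Fin k →₀ ℕ := fun s =>
    Finsupp.equivFunOnFinite.symm fun l => (s l : ℕ)
  have he : Function.Injective e := fun s s' h => funext fun l =>
    Fin.ext (congrFun (Finsupp.equivFunOnFinite.symm.injective h) l)
  refine ⟨fun t => ∑ s, MvPolynomial.monomial (e s) (u (t, s)), fun h => hi0 ?_, fun t i => ?_,
    fun a => ?_⟩
  · have h1 := congrArg (MvPolynomial.coeff (e i0.2)) (congrFun h i0.1)
    simpa [MvPolynomial.coeff_sum, MvPolynomial.coeff_monomial, he.eq_iff] using h1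
  · refine (MvPolynomial.degreeOf_sum_le _ _ _).trans (Finset.sup_le fun s _ => ?_)
    refine MvPolynomial.degreeOf_le_iff.2 fun d hd => ?_
    rw [Finset.mem_singleton.1 (MvPolynomial.support_monomial_subset hd)]
    exact Nat.lt_succ_iff.1 (s i).2
  obtain ⟨aF, hF⟩ := lam_sum (hL a) u (ab a) Finset.univ
  have h0 : L a (∑ i, u i • b a i) = 0 := by
    rw [hF]
    simpa using congrFun hu a
  have h1 : ∀ᶠ w in 𝓝 (z a (c a)), DifferentiableAt ℂ (∑ i, u i • b a i) w ∧
      ‖(∑ i, u i • b a i) w‖ ≤ ‖(∑ i, u i • b a i) (z a (c a))‖ + 1 :=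
    (aF.eventually_analyticAt.mono fun _ h => h.differentiableAt).and
      (aF.continuousAt.norm.eventually (ge_mem_nhds (lt_add_one _)))
  obtain ⟨R, hR, hB⟩ := Metric.eventually_nhds_iff_ball.1 h1
  have h2 := hb a _ R _ (fun w hw => (hB w hw).1.differentiableWithinAt)
    (fun w hw => (hB w hw).2) h0
  have h3 : (∑ i, u i • b a i) =O[𝓝 (z a (c a))] fun w => ‖w - z a (c a)‖ ^ (m + 1) := by
    refine IsBigO.of_bound (2 * (‖(∑ i, u i • b a i) (z a (c a))‖ + 1) / R ^ (m + 1)) ?_
    filter_upwards [ball_mem_nhds _ hR] with w hw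
    refine (h2 w hw).trans_eq ?_
    rw [div_pow, Real.norm_of_nonneg (by positivity)]
    ring
  have dz := (hz a).self_of_nhds
  refine ((h3.comp_tendsto dz.continuousAt.tendsto).trans
    (dz.isBigO_sub.norm_norm.pow (m + 1))).congr' ?_ EventuallyEq.rfl
  filter_upwards [hfg a] with x hx
  simp only [Function.comp_apply, Finset.sum_apply, Pi.smul_apply, smul_eq_mul, map_sum,
    MvPolynomial.eval_monomial, Fintype.sum_prod_type, Finset.sum_mul, hx, b]
  refine Finset.sum_congr rfl fun t _ => Finset.sum_congr rfl fun s _ => ?_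
  rw [Finsupp.prod_fintype _ _ fun _ => pow_zero _, mul_assoc]
  rfl

/-- A field extension in characteristic zero all of whose elements have bounded degree is finite
and simple. -/
theorem prim {K F : Type*} [Field K] [Field F] [Algebra K F] [CharZero K] {N : ℕ}
    (h : ∀ x : F, ∃ p : Polynomial K, p ≠ 0 ∧ p.natDegree ≤ N ∧ Polynomial.aeval x p = 0) :
    FiniteDimensional K F ∧ Module.finrank K F ≤ N ∧ ∃ th : F, K⟮th⟯ = ⊤ := by
  have : Algebra.IsAlgebraic K F := ⟨fun x => by
    obtain ⟨p, h1, -, h2⟩ := h x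
    exact ⟨p, h1, h2⟩⟩
  have hi : ∀ x : F, IsIntegral K x := fun x => Algebra.IsIntegral.isIntegral x
  have hd : ∀ x : F, (minpoly K x).natDegree ≤ N := fun x => by
    obtain ⟨p, h1, h2, h3⟩ := h x
    exact (Polynomial.natDegree_le_natDegree (minpoly.degree_le_of_ne_zero K x h1 h3)).trans h2
  have hb : BddAbove (range fun x : F => (minpoly K x).natDegree) :=
    ⟨N, by rintro _ ⟨x, rfl⟩; exact hd x⟩
  obtain ⟨th, hth⟩ := Nat.sSup_mem (range_nonempty _) hb
  have ht : K⟮th⟯ = ⊤ := by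
    refine eq_top_iff.2 fun y _ => ?_
    obtain ⟨w, hw⟩ := Field.primitive_element_inf_aux K th y
    have := IntermediateField.adjoin.finiteDimensional (hi w)
    have h1 : K⟮th⟯ ≤ K⟮w⟯ := hw ▸ IntermediateField.adjoin.mono _ _ _ (by simp)
    have h2 : K⟮th⟯ = K⟮w⟯ := IntermediateField.eq_of_le_of_finrank_le h1 (by
      rw [IntermediateField.adjoin.finrank (hi w), IntermediateField.adjoin.finrank (hi th)]
      exact (le_csSup hb ⟨w, rfl⟩).trans_eq hth.symm)
    rw [h2, ← hw]
    exact IntermediateField.subset_adjoin _ _ (by simp)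
  have h1 := IntermediateField.adjoin.finiteDimensional (hi th)
  have h2 := IntermediateField.adjoin.finrank (hi th)
  rw [ht] at h1 h2
  refine ⟨IntermediateField.topEquiv.toLinearEquiv.finiteDimensional, ?_, th, ht⟩
  rw [← IntermediateField.finrank_top', h2]
  exact hd th

end Pool.Agent.Lib.SG45
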