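import Pool.Agent.Lib.SG45.Loc

/-! The algebraic part of the theorem of Siegel: an integral primitive element, its discriminant
relation and the normal form of all elements. -/

open Polynomial
open scoped IntermediateField

noncomputable section

namespace Pool.Agent.Lib.SG45

theorem clr {R : Type*} [CommRing R] [IsDomain R] (p : (FractionRing R)[X]) :
    ∃ (d : R) (q : R[X]), d ≠ 0 ∧ q.map (algebraMap R (FractionRing R)) = d • p := by
  obtain ⟨d, hd, h⟩ := IsLocalization.integerNormalization_spec (nonZeroDivisors R) p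
  exact ⟨d, _, nonZeroDivisors.ne_zero hd, h⟩

/-- Over an integrally closed domain of characteristic zero. -/
theorem algR {R F : Type*} [CommRing R] [IsDomain R] [IsIntegrallyClosed R] [CharZero R] [Field F]
    [Algebra R F] (hi : Function.Injective (algebraMap R F)) {N : ℕ}
    (h : ∀ x : F, ∃ p : R[X], p ≠ 0 ∧ p.natDegree ≤ N ∧ aeval x p = 0) :
    ∃ (th : F) (m a b : R[X]) (D : R), m.Monic ∧ Prime m ∧ m.natDegree ≤ N ∧
      (∀ p : R[X], aeval th p = 0 ↔ m ∣ p) ∧ D ≠ 0 ∧ a * m + b * derivative m = C D ∧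
      ∀ f : F, ∃ (q : R) (r : R[X]), q ≠ 0 ∧ r.degree < m.degree ∧
        algebraMap R F q * f = aeval th r := by
  have : FaithfulSMul R F := (faithfulSMul_iff_algebraMap_injective R F).2 hi
  let K := FractionRing R
  let _ : Algebra K F := FractionRing.liftAlgebra R F
  have : IsScalarTower R K F := FractionRing.isScalarTower_liftAlgebra R F
  have hj : Function.Injective (algebraMap R K) := IsFractionRing.injective R K
  have : CharZero K := charZero_of_injective_algebraMap hj
  obtain ⟨hfin, hN, t0, ht0⟩ := prim (K := K) (F := F) (N := N) fun x => by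
    obtain ⟨p, h1, h2, h3⟩ := h x
    exact ⟨p.map (algebraMap R K), (Polynomial.map_ne_zero_iff hj).2 h1,
      natDegree_map_le.trans h2, by rwa [aeval_map_algebraMap]⟩
  obtain ⟨d, hd, hI⟩ := IsAlgebraic.exists_integral_multiple (R := R) (z := t0) (by
    obtain ⟨p, h1, -, h2⟩ := h t0
    exact ⟨p, h1, h2⟩)
  set th := d • t0 with hth
  have ht : K⟮th⟯ = ⊤ := by
    rw [eq_top_iff, ← ht0, IntermediateField.adjoin_simple_le_iff]
    have h1 : t0 = (algebraMap R K d)⁻¹ • th := by
      rw [hth, ← algebraMap_smul K d t0, inv_smul_smul₀ ((map_ne_zero_iff _ hj).2 hd)]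
    rw [h1]
    exact IntermediateField.smul_mem _ (IntermediateField.mem_adjoin_simple_self K th)
  have hm := minpoly.isIntegrallyClosed_eq_field_fractions' K hI
  have hK : IsIntegral K th := hI.tower_top
  obtain ⟨a0, b0, hab⟩ := (minpoly.irreducible hK).separable
  obtain ⟨da, a, hda, ha⟩ := clr a0
  obtain ⟨db, b, hdb, hb⟩ := clr b0
  replace ha : a.map (algebraMap R K) = da • a0 := ha
  replace hb : b.map (algebraMap R K) = db • b0 := hb
  refine ⟨th, minpoly R th, db • a, da • b, da * db, minpoly.monic hI,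
    minpoly.prime_of_isIntegrallyClosed hI, ?_, fun p => (minpoly.isIntegrallyClosed_dvd_iff hI p),
    mul_ne_zero hda hdb, map_injective _ hj ?_, fun f => ?_⟩
  · rw [← natDegree_map_eq_of_injective hj, ← hm]
    exact (minpoly.natDegree_le th).trans hN
  · simp only [Polynomial.map_add, Polynomial.map_mul, Polynomial.map_smul, ← derivative_map,
      ← hm, ha, hb, map_C, algebraMap_smul, smul_smul, smul_mul_assoc, mul_comm db da]
    rw [← smul_add, hab, ← algebraMap_smul K, smul_eq_C_mul, mul_one]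
  · have h1 : f ∈ (K⟮th⟯).toSubalgebra := by rw [ht]; trivial
    rw [IntermediateField.adjoin_simple_toSubalgebra_of_isAlgebraic hK.isAlgebraic,
      Algebra.adjoin_singleton_eq_range_aeval] at h1
    obtain ⟨r0, rfl⟩ := h1
    obtain ⟨q, r, hq, hr⟩ := clr r0
    replace hr : r.map (algebraMap R K) = q • r0 := hr
    refine ⟨q, r %ₘ minpoly R th, hq, degree_modByMonic_lt _ (minpoly.monic hI), ?_⟩
    rw [aeval_modByMonic_eq_self_of_root (minpoly.aeval R th), ← aeval_map_algebraMap K, hr,
      ← algebraMap_smul K, map_smul, algebraMap_smul, Algebra.smul_def]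
    rfl

/-- The form over a polynomial ring in algebraically independent elements. -/
theorem alg {F σ : Type*} [Field F] [Algebra ℂ F] [Finite σ] {z : σ → F}
    (hz : AlgebraicIndependent ℂ z) {N : ℕ}
    (h : ∀ x : F, ∃ p : (MvPolynomial σ ℂ)[X], p ≠ 0 ∧ p.natDegree ≤ N ∧
      p.eval₂ (MvPolynomial.aeval z : MvPolynomial σ ℂ →ₐ[ℂ] F).toRingHom x = 0) :
    ∃ (th : F) (m a b : (MvPolynomial σ ℂ)[X]) (D : MvPolynomial σ ℂ), m.Monic ∧ Prime m ∧
      m.natDegree ≤ N ∧
      (∀ p : (MvPolynomial σ ℂ)[X],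
        p.eval₂ (MvPolynomial.aeval z : MvPolynomial σ ℂ →ₐ[ℂ] F).toRingHom th = 0 ↔ m ∣ p) ∧
      D ≠ 0 ∧ a * m + b * derivative m = C D ∧
      ∀ f : F, ∃ (q : MvPolynomial σ ℂ) (r : (MvPolynomial σ ℂ)[X]), q ≠ 0 ∧
        r.degree < m.degree ∧ MvPolynomial.aeval z q * f =
          r.eval₂ (MvPolynomial.aeval z : MvPolynomial σ ℂ →ₐ[ℂ] F).toRingHom th := by
  let _ : Algebra (MvPolynomial σ ℂ) F :=
    (MvPolynomial.aeval z : MvPolynomial σ ℂ →ₐ[ℂ] F).toRingHom.toAlgebra
  exact algR (R := MvPolynomial σ ℂ) (F := F) hz h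

end Pool.Agent.Lib.SG45
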